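import Pool.Agent.K1H73.SQB.Stm3

set_option autoImplicit false

/-!
# The joint law with prescribed elements
-/

namespace Pool.Agent.K1H83.SQB

open Finset Pool.Agent.Y862.SQ Pool.Agent.K1H73.SQB

lemma V1_nonneg' (y : ℕ) : 0 ≤ V1 y := by
  unfold V1
  apply Finset.prod_nonneg
  intro p hp
  have h1 : 1 ≤ p := (mem_Icc.1 (mem_filter.1 hp).1).1
  rw [sub_nonneg]
  apply div_le_one_of_le₀ _ (Nat.cast_nonneg _)
  exact_mod_cast h1

/-- the telescoping bound -/
lemma V1_low' (y : ℕ) (hy : 1 ≤ y) : 1 ≤ V1 y * y := by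
  classical
  induction y, hy using Nat.le_induction with
  | base =>
    have h1 : pr 1 = ∅ := by
      ext p
      constructor
      · intro hp
        have h2 := mem_filter.1 hp
        have h3 := mem_Icc.1 h2.1
        have h4 : p = 1 := by omega
        rw [h4] at h2
        exact absurd h2.2 Nat.not_prime_one
      · intro hp
        exact absurd hp (Finset.notMem_empty _)
    rw [V1, h1]
    simp
  | succ y hy ih =>
    have hy0 : (0 : ℝ) < y := by exact_mod_cast hy
    have hnn := V1_nonneg' y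
    by_cases hp : (y + 1).Prime
    · have h1 : pr (y + 1) = insert (y + 1) (pr y) := by
        ext p
        rw [Finset.mem_insert]
        constructor
        · intro h
          have h2 := mem_filter.1 h
          have h3 := mem_Icc.1 h2.1
          by_cases he : p = y + 1
          · exact Or.inl he
          · exact Or.inr (mem_filter.2 ⟨mem_Icc.2 ⟨h3.1, by omega⟩, h2.2⟩)
        · rintro (rfl | h)
          · exact mem_filter.2 ⟨mem_Icc.2 ⟨by omega, le_rfl⟩, hp⟩
          · have h2 := mem_filter.1 h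
            have h3 := mem_Icc.1 h2.1
            exact mem_filter.2 ⟨mem_Icc.2 ⟨h3.1, by omega⟩, h2.2⟩
      have h2 : y + 1 ∉ pr y := by
        intro h
        have := mem_Icc.1 (mem_filter.1 h).1
        omega
      have h3 : V1 (y + 1) = (1 - 1 / ((y + 1 : ℕ) : ℝ)) * V1 y := by
        rw [V1, h1, Finset.prod_insert h2, V1]
      rw [h3]
      have h4 : (1 - 1 / ((y + 1 : ℕ) : ℝ)) * V1 y * ((y + 1 : ℕ) : ℝ) = V1 y * y := by
        push_cast
        field_simp
        ring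
      rw [h4]
      exact ih
    · have h1 : pr (y + 1) = pr y := by
        ext p
        constructor
        · intro h
          have h2 := mem_filter.1 h
          have h3 := mem_Icc.1 h2.1
          have he : p ≠ y + 1 := by
            rintro rfl
            exact hp h2.2
          exact mem_filter.2 ⟨mem_Icc.2 ⟨h3.1, by omega⟩, h2.2⟩
        · intro h
          have h2 := mem_filter.1 h
          have h3 := mem_Icc.1 h2.1
          exact mem_filter.2 ⟨mem_Icc.2 ⟨h3.1, by omega⟩, h2.2⟩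
      have h3 : V1 (y + 1) = V1 y := by rw [V1, h1, V1]
      rw [h3]
      push_cast
      nlinarith

lemma poisson_le {k : ℕ} (x : Fin k → ℝ) (hx : ∀ i, 0 ≤ x i) (A : Finset (Fin k → ℕ)) :
    ∑ c ∈ A, ∏ i, Real.exp (-(x i)) * x i ^ c i / ((c i).factorial : ℝ) ≤ 1 := by
  classical
  obtain ⟨N, hN⟩ : ∃ N : ℕ, ∀ c ∈ A, ∀ i, c i < N := by
    refine ⟨(A.sup fun c => univ.sup fun i => c i) + 1, fun c hc i => ?_⟩
    have h1 : c i ≤ univ.sup fun i => c i := Finset.le_sup (f := fun i => c i) (mem_univ i)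
    have h2 : (univ.sup fun i => c i) ≤ A.sup fun c => univ.sup fun i => c i :=
      Finset.le_sup (f := fun c : Fin k → ℕ => univ.sup fun i => c i) hc
    omega
  have hsub : A ⊆ Fintype.piFinset (fun _ : Fin k => range N) := by
    intro c hc
    rw [Fintype.mem_piFinset]
    intro i
    exact mem_range.2 (hN c hc i)
  have hnn : ∀ c : Fin k → ℕ, 0 ≤ ∏ i, Real.exp (-(x i)) * x i ^ c i / ((c i).factorial : ℝ) := by
    intro c
    apply Finset.prod_nonneg
    intro i _
    have := hx i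
    positivity
  calc ∑ c ∈ A, ∏ i, Real.exp (-(x i)) * x i ^ c i / ((c i).factorial : ℝ)
      ≤ ∑ c ∈ Fintype.piFinset (fun _ : Fin k => range N),
          ∏ i, Real.exp (-(x i)) * x i ^ c i / ((c i).factorial : ℝ) :=
        Finset.sum_le_sum_of_subset_of_nonneg hsub (fun c _ _ => hnn c)
    _ = ∏ i, ∑ j ∈ range N, Real.exp (-(x i)) * x i ^ j / ((j).factorial : ℝ) := by
        rw [Finset.prod_univ_sum]
    _ ≤ ∏ _i : Fin k, (1 : ℝ) := by
        apply Finset.prod_le_prod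
        · intro i _
          apply Finset.sum_nonneg
          intro j _
          have := hx i
          positivity
        · intro i _
          have h1 : ∑ j ∈ range N, Real.exp (-(x i)) * x i ^ j / ((j).factorial : ℝ) =
              Real.exp (-(x i)) * ∑ j ∈ range N, x i ^ j / ((j).factorial : ℝ) := by
            rw [Finset.mul_sum]
            refine Finset.sum_congr rfl fun j _ => ?_
            rw [mul_div_assoc]
          rw [h1]
          calc Real.exp (-(x i)) * ∑ j ∈ range N, x i ^ j / ((j).factorial : ℝ)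
              ≤ Real.exp (-(x i)) * Real.exp (x i) :=
                mul_le_mul_of_nonneg_left (Real.sum_le_exp_of_nonneg (hx i) N)
                  (Real.exp_pos _).le
            _ = 1 := by rw [← Real.exp_add]; simp
    _ = 1 := by simp

lemma mt_le {k R : ℕ} (κ : Fin k → ℕ) (hκ : ∀ i, κ i ≤ R) (x : Fin k → ℝ) (x0 : ℝ)
    (hx : ∀ i, 0 ≤ x i) (hx0 : ∀ i, x i ≤ x0) : mt κ x ≤ (max 1 x0 ^ R) ^ k := by
  unfold Pool.Agent.K1H73.SQB.mt
  calc ∏ i, x i ^ κ i / ((κ i).factorial : ℝ) ≤ ∏ _i : Fin k, max 1 x0 ^ R := by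
        apply Finset.prod_le_prod
        · intro i _
          have := hx i
          positivity
        · intro i _
          have h1 : x i ^ κ i / ((κ i).factorial : ℝ) ≤ x i ^ κ i := by
            apply div_le_self (pow_nonneg (hx i) _)
            exact_mod_cast Nat.factorial_pos _
          refine h1.trans ?_
          calc x i ^ κ i ≤ max 1 x0 ^ κ i :=
                pow_le_pow_left₀ (hx i) ((hx0 i).trans (le_max_right _ _)) _
            _ ≤ max 1 x0 ^ R := pow_le_pow_right₀ (le_max_left _ _) (hκ i)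
    _ = (max 1 x0 ^ R) ^ k := by simp

theorem t_LAWJ3 (h1 : S_MOM3) (h2 : S_JL) (h3 : S_VPL) : S_LAWJ3 := by
  classical
  intro k q a s P x0 ε hq ha hr hz hx0 hε
  obtain ⟨c, hc, hVP⟩ := h3 P hr
  obtain ⟨R, η, hη, hjl⟩ := h2 k x0 (ε / 4) hx0 (by positivity)
  obtain ⟨B, hB⟩ : ∃ B : ℝ, B = (max 1 x0 ^ R) ^ k := ⟨_, rfl⟩
  have hB1 : 1 ≤ B := by
    rw [hB]
    exact one_le_pow₀ (one_le_pow₀ (le_max_left _ _))
  obtain ⟨δ, hδ⟩ : ∃ δ : ℝ, δ = min (min (ε / 4) (1 / 2)) (η / (8 * B)) := ⟨_, rfl⟩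
  have hδ0 : 0 < δ := by
    rw [hδ]
    refine lt_min (lt_min (by positivity) (by norm_num)) (by positivity)
  have hδ1 : δ ≤ ε / 4 := by rw [hδ]; exact (min_le_left _ _).trans (min_le_left _ _)
  have hδ2 : δ ≤ 1 / 2 := by rw [hδ]; exact (min_le_left _ _).trans (min_le_right _ _)
  have hδ3 : δ * B ≤ η / 8 := by
    have h4 : δ ≤ η / (8 * B) := by rw [hδ]; exact min_le_right _ _
    calc δ * B ≤ η / (8 * B) * B := mul_le_mul_of_nonneg_right h4 (by linarith)
      _ = η / 8 := by field_simp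
  obtain ⟨θ, hθ⟩ : ∃ θ : ℝ, θ = min (η / 8) (δ / 2) := ⟨_, rfl⟩
  have hθ0 : 0 < θ := by
    rw [hθ]
    exact lt_min (by positivity) (by positivity)
  have hθ1 : θ ≤ η / 8 := by rw [hθ]; exact min_le_left _ _
  have hθ2 : θ ≤ δ / 2 := by rw [hθ]; exact min_le_right _ _
  choose K0 y0 T0 hmom using fun κ : Fin k → ℕ => h1 k q a s κ P x0 θ hq ha hr hz hθ0
  obtain ⟨y1, hy1⟩ : ∃ y1 : ℕ, (1 / (θ * c)) ^ 4 ≤ y1 := exists_nat_ge _
  obtain ⟨F, hF⟩ : ∃ F : Finset (Fin k → ℕ), F = Fintype.piFinset (fun _ => range (R + 1)) :=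
    ⟨_, rfl⟩
  obtain ⟨M, hM⟩ : ∃ M : ℕ, M = 4 * P.card := ⟨_, rfl⟩
  refine ⟨(∑ κ ∈ F, K0 κ) + 8 * M + 1, (∑ κ ∈ F, y0 κ) + y1 + 1, (∑ κ ∈ F, T0 κ) + 1,
    8 * (k * R + 1), ?_⟩
  intro Z Y y T hy hyY hT hTR hx S U hU hD A
  have hy1' : 1 ≤ y := by omega
  have hT1 : 1 ≤ T := by omega
  have hyY' : y ≤ Y := by
    calc y = y ^ 1 := (pow_one y).symm
      _ ≤ y ^ ((∑ κ ∈ F, K0 κ) + 8 * M + 1) := Nat.pow_le_pow_right hy1' (by omega)
      _ ≤ Y := hyY
  have hY1 : (1 / (θ * c)) ^ 4 ≤ (Y : ℝ) := hy1.trans (by exact_mod_cast (by omega : y1 ≤ Y))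
  have hYpos : (0 : ℝ) < Y := by exact_mod_cast (by omega : 0 < Y)
  -- the eighth root
  obtain ⟨u, hu0, hu8⟩ : ∃ u : ℝ, 0 < u ∧ u ^ 8 = Y := by
    refine ⟨(Y : ℝ) ^ (1 / 8 : ℝ), Real.rpow_pos_of_pos hYpos _, ?_⟩
    rw [← Real.rpow_natCast, ← Real.rpow_mul hYpos.le]
    norm_num
  have hTu : (T : ℝ) ^ (k * R + 1) ≤ u := by
    have h4 : ((T : ℝ) ^ (k * R + 1)) ^ 8 ≤ u ^ 8 := by
      rw [hu8, ← pow_mul, mul_comm]
      exact_mod_cast hTR
    exact le_of_pow_le_pow_left₀ (by norm_num) hu0.le h4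
  have hyu : (y : ℝ) ^ M ≤ u := by
    have h4 : ((y : ℝ) ^ M) ^ 8 ≤ u ^ 8 := by
      rw [hu8, ← pow_mul]
      have h5 : y ^ (M * 8) ≤ Y :=
        (Nat.pow_le_pow_right hy1' (by omega)).trans hyY
      exact_mod_cast h5
    exact le_of_pow_le_pow_left₀ (by norm_num) hu0.le h4
  have hcu : 1 / (θ * c) ≤ u ^ 2 := by
    have h4 : (1 / (θ * c)) ^ 4 ≤ (u ^ 2) ^ 4 := by
      rw [← pow_mul, hu8]
      exact hY1
    exact le_of_pow_le_pow_left₀ (by norm_num) (by positivity) h4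
  have hcu' : 1 ≤ θ * c * u ^ 2 := by
    rw [div_le_iff₀ (by positivity)] at hcu
    linarith
  have hsqrt : √(Y : ℝ) = u ^ 4 := by
    rw [← hu8, show u ^ 8 = (u ^ 4) ^ 2 by ring, Real.sqrt_sq (by positivity)]
  -- the density
  have hV : c / (y : ℝ) ^ M ≤ VP P y := by
    have h4 := hVP y
    refine le_trans ?_ h4
    rw [← hM, div_eq_mul_inv]
    apply mul_le_mul_of_nonneg_left _ hc.le
    have hy0 : (0 : ℝ) < y := by exact_mod_cast hy1'
    have h5 : (1 : ℝ) / y ≤ V1 y := by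
      rw [div_le_iff₀ hy0]
      exact V1_low' y hy1'
    calc ((y : ℝ) ^ M)⁻¹ = (1 / (y : ℝ)) ^ M := by rw [one_div, inv_pow]
      _ ≤ V1 y ^ M := pow_le_pow_left₀ (by positivity) h5 M
  obtain ⟨D, hDdef⟩ : ∃ D : ℝ, D = (Y : ℝ) * VP P y := ⟨_, rfl⟩
  have hDu : c * u ^ 7 ≤ D := by
    have hy0 : (0 : ℝ) < (y : ℝ) ^ M := by
      have : (0 : ℝ) < y := by exact_mod_cast hy1'
      positivity
    have h4 : c / u ≤ c / (y : ℝ) ^ M := div_le_div_of_nonneg_left hc.le hy0 hyu
    rw [hDdef]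
    calc c * u ^ 7 = (Y : ℝ) * (c / u) := by
          rw [← hu8]; field_simp
      _ ≤ (Y : ℝ) * VP P y := mul_le_mul_of_nonneg_left (h4.trans hV) hYpos.le
  have hD0 : 0 < D := lt_of_lt_of_le (by positivity) hDu
  have hTD : (T : ℝ) ^ (k * R + 1) * √(Y : ℝ) ≤ θ * D := by
    rw [hsqrt]
    calc (T : ℝ) ^ (k * R + 1) * u ^ 4 ≤ u * u ^ 4 :=
          mul_le_mul_of_nonneg_right hTu (by positivity)
      _ = 1 * u ^ 5 := by ring
      _ ≤ (θ * c * u ^ 2) * u ^ 5 := mul_le_mul_of_nonneg_right hcu' (by positivity)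
      _ = θ * (c * u ^ 7) := by ring
      _ ≤ θ * D := mul_le_mul_of_nonneg_left hDu hθ0.le
  -- the means
  have htot : (1 : ℝ) ≤ (Nat.totient q : ℝ) := by
    exact_mod_cast Nat.totient_pos.mpr (Nat.pos_of_ne_zero hq.ne_zero)
  have hmu0 : ∀ i, 0 ≤ mu q y (S i) (U i) := by
    intro i
    unfold mu
    exact div_nonneg (mul_nonneg (Nat.cast_nonneg _) (V1_nonneg' y)) (by linarith)
  have hmu1 : ∀ i, mu q y (S i) (U i) ≤ x0 := by
    intro i
    unfold mu
    have hnn : 0 ≤ ((U i - S i : ℕ) : ℝ) * V1 y := mul_nonneg (Nat.cast_nonneg _) (V1_nonneg' y)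
    refine (div_le_self hnn htot).trans (le_trans ?_ hx)
    apply mul_le_mul_of_nonneg_right _ (V1_nonneg' y)
    exact_mod_cast (Nat.sub_le _ _).trans (hU i)
  set Om : Finset ℕ := (Icc 1 Y).filter (fun n => gd P y (n + Z)) with hOm
  set X : Fin k → ℝ := fun i => mu q y (S i) (U i) with hX
  -- the moments
  have hall : ∀ κ : Fin k → ℕ, (∀ i, κ i ≤ R) →
      |∑ n ∈ Om, ∏ i, ((NP P q (a i) y (s i) (S i) (U i) (n + Z)).choose (κ i) : ℝ) -
        D * mt κ X| ≤ 2 * θ * D := by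
    intro κ hκ
    have hκP : κ ∈ F := by
      rw [hF, Fintype.mem_piFinset]
      intro i
      rw [mem_range]
      have := hκ i
      omega
    have hKk : K0 κ ≤ ∑ κ ∈ F, K0 κ := Finset.single_le_sum (fun _ _ => Nat.zero_le _) hκP
    have hyk : y0 κ ≤ ∑ κ ∈ F, y0 κ := Finset.single_le_sum (fun _ _ => Nat.zero_le _) hκP
    have hTk : T0 κ ≤ ∑ κ ∈ F, T0 κ := Finset.single_le_sum (fun _ _ => Nat.zero_le _) hκP
    have h5 := hmom κ Z Y y T (by omega)
      ((Nat.pow_le_pow_right hy1' (by omega)).trans hyY) (by omega) hx S U hU hD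
    rw [← hDdef] at h5
    refine h5.trans ?_
    have h4 : ∑ i, κ i ≤ k * R + 1 := by
      have h5 : ∑ i, κ i ≤ ∑ _i : Fin k, R := Finset.sum_le_sum fun i _ => hκ i
      rw [Finset.sum_const, Finset.card_univ, Fintype.card_fin, smul_eq_mul] at h5
      omega
    have h6 : (T : ℝ) ^ (∑ i, κ i) * √(Y : ℝ) ≤ θ * D := by
      refine le_trans ?_ hTD
      apply mul_le_mul_of_nonneg_right _ (Real.sqrt_nonneg _)
      exact pow_le_pow_right₀ (by exact_mod_cast hT1) h4
    linarith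
  have hcard : |(Om.card : ℝ) - D| ≤ δ * D := by
    have h4 := hall (fun _ => 0) (fun _ => Nat.zero_le _)
    have h5 : mt (fun _ : Fin k => 0) X = 1 := by
      unfold Pool.Agent.K1H73.SQB.mt
      simp
    have h6 : ∑ n ∈ Om, ∏ i, ((NP P q (a i) y (s i) (S i) (U i) (n + Z)).choose 0 : ℝ) =
        (Om.card : ℝ) := by
      simp
    rw [h5, mul_one] at h4
    rw [h6] at h4
    refine h4.trans ?_
    apply mul_le_mul_of_nonneg_right _ hD0.le
    linarith
  have hcard' := abs_le.1 hcard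
  have hDOm : D ≤ 2 * Om.card := by
    have : δ * D ≤ 1 / 2 * D := mul_le_mul_of_nonneg_right hδ2 hD0.le
    linarith [hcard'.1]
  have hOmD : (Om.card : ℝ) ≤ 2 * D := by
    have : δ * D ≤ 1 / 2 * D := mul_le_mul_of_nonneg_right hδ2 hD0.le
    linarith [hcard'.2]
  have hmain := hjl Om (fun n i => NP P q (a i) y (s i) (S i) (U i) (n + Z)) X hmu0 hmu1 (by
      intro κ hκ
      have h4 := hall κ hκ
      have h5 : 0 ≤ mt κ X := by
        unfold Pool.Agent.K1H73.SQB.mt
        apply Finset.prod_nonneg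
        intro i _
        have := hmu0 i
        exact div_nonneg (pow_nonneg this _) (Nat.cast_nonneg _)
      have h6 : mt κ X ≤ B := by
        rw [hB]
        exact mt_le κ hκ X x0 hmu0 hmu1
      have h7 : |D * mt κ X - Om.card * mt κ X| ≤ η / 8 * D := by
        rw [← sub_mul, abs_mul, abs_of_nonneg h5, abs_sub_comm]
        calc |(Om.card : ℝ) - D| * mt κ X ≤ δ * D * B :=
              mul_le_mul hcard h6 h5 (by positivity)
          _ = δ * B * D := by ring
          _ ≤ η / 8 * D := mul_le_mul_of_nonneg_right hδ3 hD0.le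
      have h8 : |∑ n ∈ Om, ∏ i, ((NP P q (a i) y (s i) (S i) (U i) (n + Z)).choose (κ i) : ℝ) -
          Om.card * mt κ X| ≤ 2 * θ * D + η / 8 * D := by
        calc _ = |(∑ n ∈ Om, ∏ i, ((NP P q (a i) y (s i) (S i) (U i) (n + Z)).choose (κ i) : ℝ) -
              D * mt κ X) + (D * mt κ X - Om.card * mt κ X)| := by congr 1; ring
          _ ≤ _ := (abs_add_le _ _).trans (add_le_add h4 h7)
      refine h8.trans ?_
      have h9 : 2 * θ * D ≤ η / 4 * D := mul_le_mul_of_nonneg_right (by linarith) hD0.le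
      have h10 : η / 4 * D + η / 8 * D ≤ η * Om.card := by
        calc η / 4 * D + η / 8 * D = (3 * η / 8) * D := by ring
          _ ≤ (3 * η / 8) * (2 * Om.card) := mul_le_mul_of_nonneg_left hDOm (by positivity)
          _ = (3 / 4) * (η * Om.card) := by ring
          _ ≤ η * Om.card := by
            have : 0 ≤ η * (Om.card : ℝ) := by positivity
            linarith
      linarith) A
  have hpo := poisson_le X hmu0 A
  have hpo0 : 0 ≤ ∑ c ∈ A, ∏ i, Real.exp (-(X i)) * X i ^ c i / ((c i).factorial : ℝ) := by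
    apply Finset.sum_nonneg
    intro c _
    apply Finset.prod_nonneg
    intro i _
    have : 0 ≤ X i := hmu0 i
    positivity
  obtain ⟨po, hpodef⟩ : ∃ po : ℝ,
      po = ∑ c ∈ A, ∏ i, Real.exp (-(X i)) * X i ^ c i / ((c i).factorial : ℝ) := ⟨_, rfl⟩
  rw [← hpodef] at hpo hpo0 hmain
  obtain ⟨Cn, hCn⟩ : ∃ Cn : ℕ, Cn =
      (Om.filter (fun n => (fun i => NP P q (a i) y (s i) (S i) (U i) (n + Z)) ∈ A)).card :=
    ⟨_, rfl⟩
  rw [← hCn] at hmain
  have hfin : |(Cn : ℝ) - D * po| ≤ ε * D := by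
    have h4 : |(Om.card : ℝ) * po - D * po| ≤ δ * D := by
      rw [← sub_mul, abs_mul, abs_of_nonneg hpo0]
      calc |(Om.card : ℝ) - D| * po ≤ (δ * D) * 1 := mul_le_mul hcard hpo hpo0 (by positivity)
        _ = δ * D := mul_one _
    calc |(Cn : ℝ) - D * po| = |((Cn : ℝ) - Om.card * po) + ((Om.card : ℝ) * po - D * po)| := by
          congr 1; ring
      _ ≤ ε / 4 * Om.card + δ * D := (abs_add_le _ _).trans (add_le_add hmain h4)
      _ ≤ ε / 4 * (2 * D) + ε / 4 * D :=
          add_le_add (mul_le_mul_of_nonneg_left hOmD (by positivity))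
            (mul_le_mul_of_nonneg_right hδ1 hD0.le)
      _ = 3 / 4 * (ε * D) := by ring
      _ ≤ ε * D := by
          have : 0 ≤ ε * D := by positivity
          linarith
  rw [hDdef, hpodef] at hfin
  refine le_trans (le_of_eq ?_) hfin
  congr 3
  rw [hCn]
  symm
  apply Finset.card_bij (fun n _ => n + Z)
  · intro n hn
    have hn1 := mem_filter.1 hn
    have hn2 := mem_filter.1 hn1.1
    have hn3 := mem_Icc.1 hn2.1
    exact mem_filter.2 ⟨mem_Ioc.2 ⟨by omega, by omega⟩, hn2.2, hn1.2⟩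
  · intro n _ m _ hab
    omega
  · intro n hn
    have hn1 := mem_filter.1 hn
    have hn2 := mem_Ioc.1 hn1.1
    have e1 : n - Z + Z = n := by omega
    refine ⟨n - Z, ?_, e1⟩
    refine mem_filter.2 ⟨mem_filter.2 ⟨mem_Icc.2 ⟨by omega, by omega⟩, ?_⟩, ?_⟩
    · rw [e1]; exact hn1.2.1
    · rw [e1]; exact hn1.2.2

end Pool.Agent.K1H83.SQB
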